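import Mathlib
import Pool.Agent.Lib.helper28.RepC

namespace Pool.Agent.Results.MP_459ac8_an.ZeroDensity

open Set Filter Topology Pool.Agent.H28Rep
open scoped ComplexConjugate InnerProductSpace ENNReal NNReal

noncomputable def err (w : ℂ) (r : ℝ) (k N : ℕ) : L2 :=
  ((N : ℂ) * (r : ℂ) ^ k)⁻¹ • arc w r k N - lp.single 2 k 1

lemma err_apply {w : ℂ} {N k : ℕ} (hk : k < N) (hw : IsPrimitiveRoot w N) {r : ℝ} (hr0 : 0 < r)
    (hr : r < 1) (hrk : 1 / 2 ≤ r ^ k) (n : ℕ) :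
    ‖err w r k N n‖ ≤ 2 * r ^ n ∧ ‖err w r k N n‖ ≤ 1 ∧ (n < N → err w r k N n = 0) := by
  have hN : 0 < N := by omega
  have hN' : (N : ℂ) ≠ 0 := by exact_mod_cast hN.ne'
  have hr' : (r : ℂ) ≠ 0 := by exact_mod_cast hr0.ne'
  rw [err, lp.coeFn_sub, Pi.sub_apply, lp.coeFn_smul, Pi.smul_apply, arc_full hN hw hr0.le hr,
    lp.single_apply, smul_eq_mul]
  by_cases hn : n = k
  · subst hn
    have : ((N : ℂ) * (r : ℂ) ^ n)⁻¹ * ((r : ℂ) ^ n * N) - 1 = 0 := by field_simp; ring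
    rw [if_pos (Nat.ModEq.refl n), Pi.single_eq_same, this]
    simp
    positivity
  · rw [Pi.single_eq_of_ne hn, sub_zero]
    split_ifs with h
    · have hge : N ≤ n := by
        by_contra hlt
        exact hn (Nat.ModEq.eq_of_lt_of_lt h hk (not_le.mp hlt)).symm
      have e : ((N : ℂ) * (r : ℂ) ^ k)⁻¹ * ((r : ℂ) ^ n * N) = ((r ^ n / r ^ k : ℝ) : ℂ) := by
        push_cast; field_simp
      rw [e, Complex.norm_real, Real.norm_eq_abs, abs_of_pos (by positivity)]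
      refine ⟨?_, ?_, fun h => by omega⟩
      · rw [div_le_iff₀ (by positivity)]
        nlinarith [pow_pos hr0 n]
      · rw [div_le_one (by positivity)]
        exact pow_le_pow_of_le_one hr0.le hr.le (by omega)
    · simp
      positivity

lemma arc_sc {w : ℂ} {N J k d : ℕ} (hN : 0 < N) (hw : IsPrimitiveRoot w N) (hJ : J ≤ N) {r : ℝ}
    (hr0 : 0 < r) (hr : r < 1) (hrk : 1 / 2 ≤ r ^ k) (hd : (1 - r ^ N)⁻¹ ≤ d + 3) :
    ‖((N : ℂ) * (r : ℂ) ^ k)⁻¹ • arc w r k J‖ ^ 2 ≤ 4 * (d + 3) := by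
  have h := arc_norm hN hw hJ hr0.le hr k
  have hN' : (0 : ℝ) < N := by exact_mod_cast hN
  rw [norm_smul, mul_pow, norm_inv, norm_mul, norm_pow, Complex.norm_natCast, Complex.norm_real,
    Real.norm_eq_abs, abs_of_pos hr0, inv_pow, inv_mul_le_iff₀ (by positivity)]
  have h1 : (1 / 2) ^ 2 ≤ (r ^ k) ^ 2 := pow_le_pow_left₀ (by norm_num) hrk 2
  calc _ ≤ (N : ℝ) ^ 2 * (d + 3) := h.trans (by gcongr)
    _ = (N : ℝ) ^ 2 * (1 / 2) ^ 2 * (4 * (d + 3)) := by ring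
    _ ≤ (N : ℝ) ^ 2 * (r ^ k) ^ 2 * (4 * (d + 3)) := by gcongr
    _ = _ := by ring

lemma far_single {N : ℕ → ℕ} {r : ℕ → ℝ} {w : ℕ → ℂ} {x : ℕ → L2} {s : ℕ → ℕ}
    (N1 : ∀ l, l < N l) (N2 : ∀ l, 2 * N l ≤ N (l + 1))
    (hr : ∀ l, r l = 1 - 1 / (((Nat.sqrt l : ℝ) + 2) * N l))
    (h4 : ∀ l, r l ^ N (l + 1) * (1 - r l)⁻¹ ≤ 1 / ((l : ℝ) + 1))
    (hw : ∀ l, IsPrimitiveRoot (w l) (N l)) (s1 : ∀ l, s (l + 1) = s l + N l)
    (hx : ∀ l j, j < N l → x (s l + j) = kv (r l * w l ^ j)) (k : ℕ) :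
    Far x (lp.single 2 k 1) 3 := by
  intro e he a0
  have Np : ∀ l, 0 < N l := fun l => lt_of_le_of_lt (Nat.zero_le l) (N1 l)
  have Nm : Monotone N := monotone_nat_of_le_succ fun l => by have := N2 l; omega
  have sm : StrictMono s := strictMono_nat_of_lt_succ fun i => by rw [s1]; linarith [Np i]
  set e' := min e 1 with he'
  have e0 : 0 < e' := lt_min he one_pos
  obtain ⟨m0, hm0⟩ := exists_nat_gt (44 / e' ^ 2)
  set m := max (max m0 44) (max a0 (2 * k)) with hm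
  have m1 : m0 ≤ m := by omega
  have m2 : 44 ≤ m := by omega
  have m3 : a0 ≤ m * m := by nlinarith [show a0 ≤ m by omega]
  have m4 : 2 * k ≤ m * m := by nlinarith [show 2 * k ≤ m by omega]
  have m2' : (44 : ℝ) ≤ m := by exact_mod_cast m2
  have m5 : 44 ≤ m * e' ^ 2 := by
    rw [div_lt_iff₀ (by positivity)] at hm0
    have : (m0 : ℝ) ≤ m := by exact_mod_cast m1
    nlinarith [sq_nonneg e']
  clear_value m
  set a := m * m with ha
  have ha' : (a : ℝ) = m * m := by simp [ha]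
  have cf := fun l : ℕ => circle_facts (k := k) (Np (a + l))
    (by have := N1 (a + l); omega) (hr (a + l))
  have kN : ∀ l, k < N (a + l) := fun l => by have := N1 (a + l); omega
  have dl : ∀ l, l < a → (Nat.sqrt (a + l) : ℝ) ≤ 2 * m := by
    intro l hl
    have : Nat.sqrt (a + l) < 2 * m := Nat.sqrt_lt.mpr (by nlinarith)
    exact_mod_cast this.le
  set A : ℕ → L2 := fun l => ((N (a + l) : ℂ) * (r (a + l) : ℂ) ^ k)⁻¹ •
    arc (w (a + l)) (r (a + l)) k (N (a + l)) with hA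
  set E : ℕ → L2 := fun l => err (w (a + l)) (r (a + l)) k (N (a + l)) with hE
  have AE : ∀ l, A l = E l + lp.single 2 k 1 := fun l => by simp [hA, hE, err]
  have n1 : ‖(lp.single 2 k 1 : L2)‖ = 1 := by rw [lp.norm_single (by norm_num), norm_one]
  have sc : ∀ l, l < a → ∀ J, J ≤ N (a + l) → ‖((N (a + l) : ℂ) * (r (a + l) : ℂ) ^ k)⁻¹ •
      arc (w (a + l)) (r (a + l)) k J‖ ^ 2 ≤ 4 * (2 * m + 3) := fun l hl J hJ =>
    (arc_sc (Np _) (hw _) hJ (cf l).1 (cf l).2.1 (cf l).2.2.1 (cf l).2.2.2).trans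
      (by linarith [dl l hl])
  have hB : ∀ l, l < a → ‖E l‖ ^ 2 ≤ 16 * m + 26 := by
    intro l hl
    have h1 := sc l hl _ le_rfl
    have h2 : ‖E l‖ ≤ ‖A l‖ + 1 := by
      have := norm_sub_le (A l) (lp.single 2 k 1)
      rw [n1, AE l, add_sub_cancel_right, ← AE l] at this
      exact this
    have h3 := pow_le_pow_left₀ (norm_nonneg _) h2 2
    change ‖A l‖ ^ 2 ≤ _ at h1
    nlinarith [sq_nonneg (‖A l‖ - 1)]
  have hI : ∀ l l', l < l' → ‖⟪E l, E l'⟫_ℂ‖ ≤ 2 / (a : ℝ) := by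
    intro l l' hl
    have ea := fun l n => err_apply (kN l) (hw _) (cf l).1 (cf l).2.1 (cf l).2.2.1 n
    refine (inner_le (cf l).1.le (cf l).2.1 (fun n => (ea l n).1) (fun n => (ea l' n).2.1)
      (fun n => (ea l' n).2.2)).trans ?_
    have h1 : r (a + l) ^ N (a + l') ≤ r (a + l) ^ N (a + l + 1) :=
      pow_le_pow_of_le_one (cf l).1.le (cf l).2.1.le (Nm (by omega))
    have h2 := h4 (a + l)
    have h3 : 0 < (1 - r (a + l))⁻¹ := inv_pos.mpr (by linarith [(cf l).2.1])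
    have h5 : 1 / (((a + l : ℕ) : ℝ) + 1) ≤ 1 / (a : ℝ) :=
      one_div_le_one_div_of_le (by rw [ha']; positivity)
        (by push_cast; linarith [Nat.cast_nonneg (α := ℝ) l])
    have h6 := mul_le_mul_of_nonneg_right h1 h3.le
    rw [show 2 / (a : ℝ) = 2 * (1 / a) by ring]
    linarith
  have ap : (0 : ℝ) < a := by rw [ha']; positivity
  have hS : ∀ j, j ≤ a → ‖(a : ℂ)⁻¹ • ∑ l ∈ Finset.range j, E l‖ ≤ e' := by
    intro j hj
    have hj' : (j : ℝ) ≤ a := by exact_mod_cast hj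
    have h1 := sum_sq_le (η := 2 / (a : ℝ)) (by positivity) j (fun l hl => hB l (by omega)) hI
    rw [norm_smul, norm_inv, Complex.norm_natCast, inv_mul_le_iff₀ ap]
    refine (pow_le_pow_iff_left₀ (norm_nonneg _) (by positivity) two_ne_zero).mp (h1.trans ?_)
    calc (j : ℝ) * (16 * (m : ℝ) + 26) + (j : ℝ) ^ 2 * (2 / (a : ℝ))
        ≤ (a : ℝ) * (16 * (m : ℝ) + 26) + (a : ℝ) ^ 2 * (2 / (a : ℝ)) := by gcongr
      _ = (a : ℝ) * (16 * (m : ℝ) + 28) := by field_simp; ring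
      _ ≤ (a : ℝ) * ((m : ℝ) * 44) := by gcongr; linarith
      _ ≤ (a : ℝ) * ((m : ℝ) * ((m : ℝ) * e' ^ 2)) := by gcongr
      _ = ((a : ℝ) * e') ^ 2 := by rw [ha']; ring
  have hsum : ∀ j : ℕ, ∑ l ∈ Finset.range j, (a : ℂ)⁻¹ • A l =
      (a : ℂ)⁻¹ • ∑ l ∈ Finset.range j, E l + ((a : ℂ)⁻¹ * j) • (lp.single 2 k 1 : L2) := by
    intro j
    rw [← Finset.smul_sum, mul_smul, ← smul_add]
    congr 1
    simp_rw [AE]
    rw [Finset.sum_add_distrib, Finset.sum_const, Finset.card_range, Nat.cast_smul_eq_nsmul]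
  have one : ∀ l, l < a → ∃ c, Blk x (s (a + l)) (s (a + (l + 1))) c ((a : ℂ)⁻¹ • A l) 0 1 := by
    intro l hl
    have key : ∀ J, ∑ j ∈ Finset.Ico 0 J, ((a : ℂ)⁻¹ * (((N (a + l) : ℂ) * (r (a + l) : ℂ) ^ k)⁻¹ *
        (w (a + l) ^ j) ^ k)) • kv (r (a + l) * w (a + l) ^ j) =
        (a : ℂ)⁻¹ • ((N (a + l) : ℂ) * (r (a + l) : ℂ) ^ k)⁻¹ •
          arc (w (a + l)) (r (a + l)) k J := by
      intro J
      rw [arc, Finset.smul_sum, Finset.smul_sum, Finset.range_eq_Ico]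
      simp only [mul_smul]
    have b0 : Blk (fun j => kv (r (a + l) * w (a + l) ^ j)) 0 (N (a + l))
        (fun j => (a : ℂ)⁻¹ * (((N (a + l) : ℂ) * (r (a + l) : ℂ) ^ k)⁻¹ * (w (a + l) ^ j) ^ k))
        ((a : ℂ)⁻¹ • A l) 0 1 := by
      refine ⟨Nat.zero_le _, by rw [key]; simp [hA], fun J _ hJ => ?_⟩
      rw [key, norm_smul, norm_inv, Complex.norm_natCast, inv_mul_le_iff₀ ap, mul_one]
      refine (pow_le_pow_iff_left₀ (norm_nonneg _) ap.le two_ne_zero).mp ((sc l hl J hJ).trans ?_)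
      rw [ha']
      nlinarith [mul_le_mul m2' m2' (by norm_num) (by linarith), sq_nonneg ((m : ℝ) * m - m)]
    exact ⟨_, by rw [← add_assoc, s1]; exact b0.shift fun j hj => hx _ j hj⟩
  have all : ∀ j, j ≤ a → ∃ c, Blk x (s a) (s (a + j)) c
      (∑ l ∈ Finset.range j, (a : ℂ)⁻¹ • A l) 0 3 := by
    intro j
    induction j with
    | zero => exact fun _ => ⟨_, by simpa using (blk_zero x le_rfl).mono le_rfl (by norm_num)⟩
    | succ j ih =>
      intro hj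
      obtain ⟨c, h1⟩ := ih (by omega)
      obtain ⟨c', h2⟩ := one j (by omega)
      obtain ⟨c'', h3⟩ := h1.append h2
      refine ⟨c'', ?_⟩
      rw [Finset.sum_range_succ]
      refine h3.mono (by simp) (max_le le_rfl ?_)
      have h4 := hS j (by omega)
      have h5 : ‖((a : ℂ)⁻¹ * j) • (lp.single 2 k 1 : L2)‖ ≤ 1 := by
        rw [norm_smul, n1, mul_one, norm_mul, norm_inv, Complex.norm_natCast,
          Complex.norm_natCast, inv_mul_le_iff₀ ap, mul_one]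
        exact_mod_cast (by omega : j ≤ a)
      rw [hsum]
      linarith [norm_add_le ((a : ℂ)⁻¹ • ∑ l ∈ Finset.range j, E l)
        (((a : ℂ)⁻¹ * j) • (lp.single 2 k 1 : L2)), min_le_right e 1]
  obtain ⟨c, h1⟩ := all a le_rfl
  have h2 := h1.target (g' := lp.single 2 k 1) (e := e) (by
    have : (a : ℂ) ≠ 0 := by exact_mod_cast ap.ne'
    rw [hsum, inv_mul_cancel₀ this, one_smul, sub_add_cancel_right, norm_neg]
    exact (hS a le_rfl).trans (min_le_left _ _))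
  obtain ⟨c', h3⟩ := h2.start (a := a0) (m3.trans sm.le_apply)
  exact ⟨_, c', h3⟩

theorem result :
    ∃ Λ : ℕ → ℂ, Function.Injective Λ ∧ (∀ n, ‖Λ n‖ < 1) ∧
      (∀ ρ : ℝ, ρ < 1 → {n | ‖Λ n‖ < ρ}.Finite) ∧
      Tendsto (fun ρ : ℝ => (1 - ρ) * ({n | ‖Λ n‖ < ρ}.ncard : ℝ)) (𝓝[<] 1) (𝓝 0) ∧
      ∀ f : ℕ → ℂ, Summable (fun n => ‖f n‖ ^ 2) →
        ∃ c : ℕ → ℂ, Tendsto
          (fun N : ℕ => ∑' n : ℕ,
            ‖f n - ∑ k ∈ Finset.range N, c k * (starRingEnd ℂ (Λ k)) ^ n‖ ^ 2)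
          atTop (𝓝 0) := by
  obtain ⟨N, r, N1, N2, hr, h4⟩ := exists_params
  have Np : ∀ l, 0 < N l := fun l => lt_of_le_of_lt (Nat.zero_le l) (N1 l)
  set w : ℕ → ℂ := fun l => Complex.exp (2 * Real.pi * Complex.I / N l) with hwdef
  have hw : ∀ l, IsPrimitiveRoot (w l) (N l) := fun l =>
    Complex.isPrimitiveRoot_exp _ (Np l).ne'
  obtain ⟨L, s, s0, s1, hL, hall⟩ := exists_concat N Np fun l j => (r l * w l ^ j : ℂ)
  have sm : StrictMono s := strictMono_nat_of_lt_succ fun i => by rw [s1]; linarith [Np i]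
  have cf := fun l : ℕ => circle_facts (k := 0) (Np l) (by omega) (hr l)
  have nL : ∀ l j, j < N l → ‖L (s l + j)‖ = r l := fun l j hj => by
    rw [hL l j hj, norm_pt ((hw l).norm'_eq_one (Np l).ne') (cf l).1.le]
  have sq : ∀ l l', l ≤ l' → (Nat.sqrt l : ℝ) ≤ Nat.sqrt l' := fun l l' h => by
    exact_mod_cast Nat.sqrt_le_sqrt h
  have rm : StrictMono r := strictMono_nat_of_lt_succ fun l => by
    rw [hr, hr]
    have h1 : (N l : ℝ) < N (l + 1) := by
      have := N2 l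
      have := Np l
      exact_mod_cast (by omega : N l < N (l + 1))
    have h2 : (0 : ℝ) < N l := by exact_mod_cast Np l
    have h3 := sq l (l + 1) (by omega)
    have := one_div_lt_one_div_of_lt (a := ((Nat.sqrt l : ℝ) + 2) * N l)
      (b := ((Nat.sqrt (l + 1) : ℝ) + 2) * N (l + 1)) (by positivity)
      (mul_lt_mul' (by linarith) h1 h2.le (by positivity))
    linarith
  have big : ∀ ρ : ℝ, ρ < 1 → ∃ l, ρ ≤ r l := by
    intro ρ hρ
    obtain ⟨l, hl⟩ := exists_nat_one_div_lt (sub_pos.mpr hρ)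
    refine ⟨l, ?_⟩
    have h1 : (l : ℝ) + 1 ≤ N l := by exact_mod_cast N1 l
    have h0 : (0 : ℝ) ≤ Nat.sqrt l := Nat.cast_nonneg _
    have h2 : (0 : ℝ) ≤ l := Nat.cast_nonneg _
    have := one_div_le_one_div_of_le (a := (l : ℝ) + 1) (b := ((Nat.sqrt l : ℝ) + 2) * N l)
      (by positivity) (by nlinarith)
    rw [hr]; linarith
  have sub : ∀ (ρ : ℝ) l, ρ ≤ r l → {n | ‖L n‖ < ρ} ⊆ ↑(Finset.range (s l)) := by
    intro ρ l hl n hn
    obtain ⟨i, j, hj, rfl⟩ := hall n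
    have h1 : ‖L (s i + j)‖ < ρ := hn
    rw [nL i j hj] at h1
    have h2 : i < l := rm.lt_iff_lt.mp (h1.trans_le hl)
    have h3 := sm.monotone (show i + 1 ≤ l by omega)
    rw [s1] at h3
    simp only [Finset.coe_range, mem_Iio]
    omega
  have sN : ∀ l, s l ≤ N l := by
    intro l
    induction l with
    | zero => omega
    | succ l ih => have := N2 l; rw [s1]; omega
  have hlt : ∀ n, ‖L n‖ < 1 := by
    intro n
    obtain ⟨i, j, hj, rfl⟩ := hall n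
    rw [nL i j hj]; exact (cf i).2.1
  refine ⟨L, fun n m hnm => ?_, hlt, fun ρ hρ => ?_, ?_, final hlt ?_ dense_single⟩
  · obtain ⟨i, k, hk, rfl⟩ := hall n
    obtain ⟨j, l, hl, rfl⟩ := hall m
    have h1 := congrArg norm hnm
    rw [nL i k hk, nL j l hl] at h1
    obtain rfl := rm.injective h1
    rw [hL i k hk, hL i l hl] at hnm
    have h2 : (r i : ℂ) ≠ 0 := by exact_mod_cast (cf i).1.ne'
    rw [(hw i).pow_inj hk hl (mul_left_cancel₀ h2 hnm)]
  · obtain ⟨l, hl⟩ := big ρ hρ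
    exact (Finset.finite_toSet _).subset (sub ρ l hl)
  · rw [Metric.tendsto_nhds]
    intro e he
    obtain ⟨K, hK⟩ := exists_nat_one_div_lt (half_pos he)
    filter_upwards [Ioo_mem_nhdsLT (cf (K * K)).2.1] with ρ hρ
    classical
    have ex := big ρ hρ.2
    have a1 := Nat.find_spec ex
    have a2 : K * K < Nat.find ex := rm.lt_iff_lt.mp (hρ.1.trans_le a1)
    obtain ⟨l, hl⟩ : ∃ l, Nat.find ex = l + 1 := ⟨Nat.find ex - 1, by omega⟩
    have a3 : r l < ρ := not_le.mp (Nat.find_min ex (by omega))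
    rw [hl] at a1
    have a4 : ({n | ‖L n‖ < ρ}.ncard : ℝ) ≤ 2 * N l := by
      have := ncard_le_ncard (sub ρ _ a1) (Finset.finite_toSet _)
      rw [ncard_coe_finset, Finset.card_range, s1] at this
      have := sN l
      exact_mod_cast (by omega : {n | ‖L n‖ < ρ}.ncard ≤ 2 * N l)
    have a5 : (K : ℝ) ≤ Nat.sqrt l := by
      exact_mod_cast Nat.le_sqrt.mpr (by omega)
    have a6 : (0 : ℝ) < N l := by exact_mod_cast Np l
    have a7 : 0 < 1 - ρ := sub_pos.mpr hρ.2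
    rw [Real.dist_eq, sub_zero, abs_of_nonneg (by positivity)]
    have a8 : 1 / ((Nat.sqrt l : ℝ) + 2) ≤ 1 / ((K : ℝ) + 1) :=
      one_div_le_one_div_of_le (by positivity) (by linarith)
    calc _ ≤ (1 - r l) * (2 * N l) := mul_le_mul (by linarith) a4 (by positivity) (by linarith)
      _ = 2 * (1 / ((Nat.sqrt l : ℝ) + 2)) := by rw [hr]; field_simp; ring
      _ < e := by linarith
  · rintro _ ⟨k, rfl⟩
    exact ⟨3, far_single N1 N2 hr h4 hw s1 (fun l j hj => by simp only [hL l j hj]) k⟩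

end Pool.Agent.Results.MP_459ac8_an.ZeroDensity
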